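import Pool.Agent.W243.TD.Stm
import Pool.Agent.W689.TD.Obs
import Pool.Agent.W398.TD.AuxA
import Pool.Agent.W636.TD.Constr
import Pool.Agent.W85.TD.Pig
import Pool.Agent.W337.TD.Coef
import Pool.Agent.W975.TD.Rep

/-!
# Grids of exponentials cannot be algebraic over a field of transcendence degree one

If `2 (b + l) < b l` and `γ : Fin b → ℂ`, `ω : Fin l → ℂ` are linearly independent over `ℚ`, then the
numbers `exp (γ j * ω p)` are not all algebraic over `ℚ(θ)`.
-/

set_option autoImplicit false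

namespace Pool.Agent.Helper455.Tow

open Finset Module
open Pool.Agent.W243.TD

theorem aux : S_aux :=
  Pool.Agent.W398.TD.main
    (Pool.Agent.W636.TD.constr Pool.Agent.W85.TD.pig Pool.Agent.W337.TD.coef_bound)
    Pool.Agent.W975.TD.rep

theorem obs : S_obs := Pool.Agent.W689.TD.obs aux

theorem sum_eq_zero {b : ℕ} {γ : Fin b → ℂ} (hγ : LinearIndependent ℚ γ) {m : Fin b → ℤ}
    (h : ∑ j, (m j : ℂ) * γ j = 0) : m = 0 := by
  rw [Fintype.linearIndependent_iff] at hγ
  have h1 := hγ (fun j => (m j : ℚ)) (by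
    rw [← h]
    apply Finset.sum_congr rfl
    intro j _
    rw [Algebra.smul_def]
    simp)
  funext j
  exact_mod_cast h1 j

theorem rank_le_one {b : ℕ} {γ : Fin b → ℂ} (hγ : LinearIndependent ℚ γ) {P c : ℂ} (hP : P ≠ 0)
    (hc : c ≠ 0) (G : AddSubgroup (Fin b → ℤ))
    (h : ∀ m ∈ G, ∃ n : ℤ, (∑ j, (m j : ℂ) * γ j) * c = n * P) : finrank ℤ G ≤ 1 := by
  classical
  have h' : ∀ m : G, ∃ n : ℤ, (∑ j, ((m : Fin b → ℤ) j : ℂ) * γ j) * c = n * P :=
    fun m => h m.1 m.2
  choose f hf using h'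
  have huniq : ∀ n n' : ℤ, (n : ℂ) * P = n' * P → n = n' := by
    intro n n' hn
    exact_mod_cast mul_right_cancel₀ hP hn
  let F : G →+ ℤ := AddMonoidHom.mk' f (by
    intro x y
    apply huniq
    rw [← hf]
    push_cast
    rw [add_mul, ← hf, ← hf, ← add_mul, ← Finset.sum_add_distrib]
    congr 1
    apply Finset.sum_congr rfl
    intro j _
    push_cast [AddSubgroup.coe_add, Pi.add_apply]
    ring)
  have hinj : Function.Injective F := by
    rw [injective_iff_map_eq_zero]
    intro x hx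
    have h1 := hf x
    have h2 : f x = 0 := hx
    rw [h2] at h1
    simp only [Int.cast_zero, zero_mul, mul_eq_zero, hc, or_false] at h1
    exact Subtype.ext (sum_eq_zero hγ h1)
  have h3 := LinearMap.finrank_le_finrank_of_injective (f := F.toIntLinearMap) hinj
  simpa using h3

/-- **Grids of exponentials in transcendence degree one.** -/
theorem expGrid {θ : ℂ} (hθ : Transcendental ℚ θ) {b l : ℕ} (hbl : 2 * (b + l) < b * l)
    {γ : Fin b → ℂ} {ω : Fin l → ℂ} (hγ : LinearIndependent ℚ γ) (hω : LinearIndependent ℚ ω)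
    (h : ∀ j p, Al θ (Complex.exp (γ j * ω p))) : False := by
  obtain ⟨Af', Rm', W0, G0, h1, h2, h3, h4, h5⟩ := obs θ hθ 1 b l ∅ 0 (by norm_num)
    (fun _ j => γ j) (fun _ p => ω p) (Or.inl rfl) (by simp) (by simpa using h)
    (7 * (b + l)) (7 * l) (7 * b) (by ring) (by
      simp only [Finset.card_empty, zero_mul, zero_add]
      have : b * (7 * l) = 7 * (b * l) := by ring
      rw [this]
      omega)
  have hA : Af' = ⊥ := by
    rw [eq_bot_iff]
    intro a ha
    rw [Submodule.mem_bot]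
    funext i
    exact h1 a ha i (by simp)
  have hR : Rm' ≠ ⊥ := fun h => h2 ⟨hA, h⟩
  subst hA
  have hb : finrank ℤ Rm' ≤ b := by
    have := LinearMap.finrank_le_finrank_of_injective (f := (Rm'.subtype).toIntLinearMap)
      Subtype.coe_injective
    simpa using this
  have : Module.Finite ℤ Rm' :=
    Module.Finite.of_injective (Rm'.subtype).toIntLinearMap Subtype.coe_injective
  have hRpos : 1 ≤ finrank ℤ Rm' := by
    by_contra hcon
    have h0 : finrank ℤ Rm' = 0 := by omega
    apply hR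
    rw [eq_bot_iff]
    intro x hx
    by_contra hne
    have hne' : (⟨x, hx⟩ : Rm') ≠ 0 := by
      intro hh
      apply hne
      rw [AddSubgroup.mem_bot]
      exact congrArg Subtype.val hh
    have : Subsingleton Rm' := finrank_zero_iff.1 h0
    exact hne' (Subsingleton.elim _ _)
  have hl1 : 1 ≤ l := by
    rcases Nat.eq_zero_or_pos l with h | h
    · subst h; simp at hbl
    · exact h
  have hb1 : 1 ≤ b := by
    rcases Nat.eq_zero_or_pos b with h | h
    · subst h; simp at hbl
    · exact h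
  simp only [zero_mul, zero_add, finrank_bot] at h5
  have hlt : (l - finrank ℤ G0) * (7 * b) < finrank ℤ Rm' * (7 * l) := by
    rcases h5 with h5 | ⟨h5, -, h6⟩
    · exact h5
    · rw [h6, zero_mul] at h5
      rw [h6, zero_mul]
      positivity
  have hlt' : (l - finrank ℤ G0) * b < finrank ℤ Rm' * l := by
    have e1 : (l - finrank ℤ G0) * (7 * b) = 7 * ((l - finrank ℤ G0) * b) := by ring
    have e2 : finrank ℤ Rm' * (7 * l) = 7 * (finrank ℤ Rm' * l) := by ring
    rw [e1, e2] at hlt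
    omega
  have hP : (2 * (Real.pi : ℂ) * Complex.I) ≠ 0 := Complex.two_pi_I_ne_zero
  have hG : ∀ s ∈ G0, ∀ m ∈ Rm', ∃ n : ℤ,
      (∑ j, (m j : ℂ) * γ j) * (∑ p, (s p : ℂ) * ω p) = n * (2 * (Real.pi : ℂ) * Complex.I) := by
    intro s hs m hm
    obtain ⟨n, hn⟩ := ((h4 s).1 hs).2 m hm
    refine ⟨n, ?_⟩
    rw [← hn, Finset.sum_mul_sum]
    apply Finset.sum_congr rfl
    intro j _
    apply Finset.sum_congr rfl
    intro p _
    simp
    ring
  by_cases hG0 : G0 = ⊥
  · rw [hG0] at hlt'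
    have h0 : finrank ℤ (⊥ : AddSubgroup (Fin l → ℤ)) = 0 := by
      apply finrank_zero_of_subsingleton
    rw [h0, Nat.sub_zero] at hlt'
    have := Nat.mul_le_mul_right l hb
    rw [mul_comm l b] at hlt'
    omega
  · obtain ⟨s0, hs0, hs0'⟩ : ∃ s0 ∈ G0, s0 ≠ 0 := by
      by_contra hcon
      push Not at hcon
      apply hG0
      rw [eq_bot_iff]
      intro x hx
      rw [AddSubgroup.mem_bot]
      exact hcon x hx
    obtain ⟨m0, hm0, hm0'⟩ : ∃ m0 ∈ Rm', m0 ≠ 0 := by
      by_contra hcon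
      push Not at hcon
      apply hR
      rw [eq_bot_iff]
      intro x hx
      rw [AddSubgroup.mem_bot]
      exact hcon x hx
    have hc : (∑ p, (s0 p : ℂ) * ω p) ≠ 0 := fun hh => hs0' (sum_eq_zero hω hh)
    have hd : (∑ j, (m0 j : ℂ) * γ j) ≠ 0 := fun hh => hm0' (sum_eq_zero hγ hh)
    have hR1 : finrank ℤ Rm' ≤ 1 := rank_le_one hγ hP hc Rm' (fun m hm => hG s0 hs0 m hm)
    have hG1 : finrank ℤ G0 ≤ 1 := rank_le_one hω hP hd G0 (fun s hs => by
      obtain ⟨n, hn⟩ := hG s hs m0 hm0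
      exact ⟨n, by rw [← hn]; ring⟩)
    have h7 : (l - 1) * b ≤ (l - finrank ℤ G0) * b := Nat.mul_le_mul_right _ (by omega)
    have h8 : finrank ℤ Rm' * l ≤ 1 * l := Nat.mul_le_mul_right _ hR1
    rw [Nat.sub_mul, mul_comm l b] at h7
    omega

end Pool.Agent.Helper455.Tow
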