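import Pool.Agent.W243.TD.Main
import Pool.Agent.W242.GG.Count
import Pool.Agent.H340R2.LW

/-!
# Schanuel's inequality for pairs `(z, w)` in rational spaces with small products
-/

set_option autoImplicit false

namespace Pool.Agent.Helper455.Sch

open Module Polynomial
open Pool.Agent.W243.TD

/-- The transcendence degree over `ℚ` of the field generated by the elements of `S` and their
exponentials. -/
noncomputable def td (S : Set ℂ) : Cardinal :=
  Algebra.trdeg ℚ (IntermediateField.adjoin ℚ (S ∪ Complex.exp '' S))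

theorem two_le_of_indep {S : Set ℂ} {a b : ℂ}
    (ha : a ∈ IntermediateField.adjoin ℚ (S ∪ Complex.exp '' S))
    (hb : b ∈ IntermediateField.adjoin ℚ (S ∪ Complex.exp '' S))
    (h : AlgebraicIndependent ℚ ![a, b]) : 2 ≤ td S := by
  let F := IntermediateField.adjoin ℚ (S ∪ Complex.exp '' S)
  let x : Fin 2 → F := ![⟨a, ha⟩, ⟨b, hb⟩]
  let f : F →ₐ[ℚ] ℂ := RingHom.toRatAlgHom (F.val : F →+* ℂ)
  have h1 : (f ∘ x) = ![a, b] := by
    funext i
    fin_cases i <;> rfl
  have h2 : AlgebraicIndependent ℚ x := AlgebraicIndependent.of_comp f (by rw [h1]; exact h)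
  have h3 := h2.cardinalMk_le_trdeg
  rw [Cardinal.mk_fin] at h3
  exact_mod_cast h3

/-- a transcendental number attached to `z` -/
theorem exists_theta {z : ℂ} (hz : z ≠ 0) : ∃ θ : ℂ, Transcendental ℚ θ ∧
    ∀ w : ℂ, ¬ 2 ≤ td {z, w} → Al θ w ∧ Al θ (Complex.exp w) := by
  have key : ∀ θ : ℂ, Transcendental ℚ θ → (θ = z ∨ θ = Complex.exp z) →
      ∀ w : ℂ, ¬ 2 ≤ td {z, w} → Al θ w ∧ Al θ (Complex.exp w) := by
    intro θ hθ h w hw
    have hmem : ∀ s ∈ (({z, w} : Set ℂ) ∪ Complex.exp '' {z, w}),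
        s ∈ IntermediateField.adjoin ℚ (({z, w} : Set ℂ) ∪ Complex.exp '' {z, w}) :=
      fun s hs => IntermediateField.subset_adjoin ℚ _ hs
    have hθm : θ ∈ IntermediateField.adjoin ℚ (({z, w} : Set ℂ) ∪ Complex.exp '' {z, w}) := by
      rcases h with h | h
      · rw [h]; exact hmem z (by simp)
      · rw [h]; exact hmem _ (by right; exact ⟨z, by simp, rfl⟩)
    constructor
    · by_contra hcon
      exact hw (two_le_of_indep hθm (hmem w (by simp))
        (Pool.Agent.W242.GG.algInd_pair hθ hcon))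
    · by_contra hcon
      exact hw (two_le_of_indep hθm (hmem _ (by right; exact ⟨w, by simp, rfl⟩))
        (Pool.Agent.W242.GG.algInd_pair hθ hcon))
  by_cases hzt : Transcendental ℚ z
  · exact ⟨z, hzt, key z hzt (Or.inl rfl)⟩
  · have h1 : IsAlgebraic ℚ z := by
      by_contra h; exact hzt h
    have h2 := Pool.Agent.H340R2.LW.transcendental_cexp z h1 hz
    exact ⟨Complex.exp z, h2, key _ h2 (Or.inr rfl)⟩

theorem al_rat {θ : ℂ} (a : ℚ) : Al θ (a : ℂ) := by
  have : IsAlgebraic (IntermediateField.adjoin ℚ {θ}) (algebraMap ℚ ℂ a) := by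
    rw [IsScalarTower.algebraMap_apply ℚ (IntermediateField.adjoin ℚ {θ}) ℂ]
    exact isAlgebraic_algebraMap _
  unfold Al
  simpa using this

/-- the space of all `w` such that `w`, `exp w` are algebraic over `ℚ(θ)` -/
noncomputable def EE (θ : ℂ) : Submodule ℚ ℂ where
  carrier := {w | Al θ w ∧ Al θ (Complex.exp w)}
  zero_mem' := by
    refine ⟨isAlgebraic_zero, ?_⟩
    rw [Complex.exp_zero]
    exact isAlgebraic_one
  add_mem' := by
    rintro x y ⟨hx, hx'⟩ ⟨hy, hy'⟩
    refine ⟨hx.add hy, ?_⟩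
    rw [Complex.exp_add]
    exact hx'.mul hy'
  smul_mem' := by
    rintro a x ⟨hx, hx'⟩
    have h1 : a • x = (a : ℂ) * x := Rat.smul_def a x
    rw [h1]
    refine ⟨(al_rat a).mul hx, ?_⟩
    have hd : 0 < a.den := a.den_pos
    apply IsAlgebraic.of_pow hd
    have e1 : Complex.exp ((a : ℂ) * x) ^ a.den = Complex.exp x ^ a.num := by
      rw [← Complex.exp_nat_mul, ← Complex.exp_int_mul]
      congr 1
      have h2 : (a.den : ℂ) * (a : ℂ) = (a.num : ℂ) := by
        have := Rat.den_mul_eq_num a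
        exact_mod_cast this
      rw [← mul_assoc, h2]
    rw [e1]
    obtain ⟨m, hm | hm⟩ := a.num.eq_nat_or_neg
    · rw [hm, zpow_natCast]; exact hx'.pow m
    · rw [hm, zpow_neg, zpow_natCast]; exact (hx'.pow m).inv

theorem mem_EE {θ w : ℂ} : w ∈ EE θ ↔ Al θ w ∧ Al θ (Complex.exp w) := Iff.rfl

/-- product inequality for the spaces in `EE θ` -/
theorem prod_ineq {θ : ℂ} (hθ : Transcendental ℚ θ) (W : Submodule ℚ ℂ) (hW : W ≤ EE θ)
    (hWf : FiniteDimensional ℚ W) (X Y : Submodule ℚ ℂ) (hXf : FiniteDimensional ℚ X)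
    (hYf : FiniteDimensional ℚ Y) (h : ∀ x ∈ X, ∀ w ∈ W, x * w ∈ Y) :
    finrank ℚ X * finrank ℚ W ≤ finrank ℚ Y + finrank ℚ X * (finrank ℚ X - 1) :=
  prod1 hθ X W Y (fun w hw => (hW hw).1) (fun w hw => (hW hw).2) h

theorem prod_ineq' {θ : ℂ} (hθ : Transcendental ℚ θ) (W : Submodule ℚ ℂ) (hW : W ≤ EE θ)
    (hWf : FiniteDimensional ℚ W) (X : Submodule ℚ ℂ) (hXf : FiniteDimensional ℚ X) :
    finrank ℚ X * finrank ℚ W ≤ finrank ℚ (X * W : Submodule ℚ ℂ) +
      finrank ℚ X * (finrank ℚ X - 1) := by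
  have hf : FiniteDimensional ℚ (X * W : Submodule ℚ ℂ) := by
    have h1 : X.FG := Submodule.fg_top X |>.1 hXf.1
    have h2 : W.FG := Submodule.fg_top W |>.1 hWf.1
    exact ⟨(Submodule.fg_top _).2 (h1.mul h2)⟩
  exact prod_ineq hθ W hW hWf X _ hXf hf (fun x hx w hw => Submodule.mul_mem_mul hx hw)

/-- number fields -/
theorem number_field {θ : ℂ} (hθ : Transcendental ℚ θ) (L : IntermediateField ℚ ℂ)
    (hL : FiniteDimensional ℚ L) (u : ℂ) (hu : u ≠ 0) (W : Submodule ℚ ℂ)
    (hWL : ∀ a ∈ W, a ∈ L) (hW : ∀ a ∈ W, u * a ∈ EE θ) :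
    (finrank ℚ W + 1) ^ 2 ≤ 4 * finrank ℚ L + 1 := by
  set Ls : Submodule ℚ ℂ := Subalgebra.toSubmodule L.toSubalgebra with hLs
  have hLsf : FiniteDimensional ℚ Ls := hL
  have hLsr : finrank ℚ Ls = finrank ℚ L := rfl
  have hWle : W ≤ Ls := fun a ha => hWL a ha
  have hWf : FiniteDimensional ℚ W := Submodule.finiteDimensional_of_le hWle
  -- multiplication by `u`
  set f : ℂ →ₗ[ℚ] ℂ := LinearMap.mulLeft ℚ u with hf
  have hfi : Function.Injective f := by
    intro a b hab
    exact mul_left_cancel₀ hu hab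
  have hWu : W.map f ≤ EE θ := by
    rintro _ ⟨a, ha, rfl⟩
    exact hW a ha
  have hr1 : finrank ℚ (W.map f) = finrank ℚ W :=
    (Submodule.equivMapOfInjective f hfi W).finrank_eq.symm
  have hr2 : finrank ℚ (Ls.map f) = finrank ℚ L := by
    rw [← hLsr]
    exact (Submodule.equivMapOfInjective f hfi Ls).finrank_eq.symm
  have key : ∀ a : ℕ, a ≤ finrank ℚ L → a * finrank ℚ W ≤ finrank ℚ L + a * (a - 1) := by
    intro a ha
    obtain ⟨g, hg⟩ := exists_linearIndependent_of_le_finrank (R := ℚ) (M := Ls)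
      (n := a) (by rw [hLsr]; exact ha)
    have hg' : LinearIndependent ℚ (fun i => (g i : ℂ)) :=
      hg.map' Ls.subtype (Submodule.ker_subtype _)
    set X : Submodule ℚ ℂ := Submodule.span ℚ (Set.range (fun i => (g i : ℂ))) with hX
    have hXr : finrank ℚ X = a := by
      rw [hX, finrank_span_eq_card hg', Fintype.card_fin]
    have hXf : FiniteDimensional ℚ X := FiniteDimensional.span_of_finite ℚ (Set.finite_range _)
    have hXL : X ≤ Ls := by
      rw [hX, Submodule.span_le]
      rintro _ ⟨i, rfl⟩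
      exact (g i).2
    have h := prod_ineq hθ (W.map f) hWu inferInstance X (Ls.map f) hXf inferInstance (by
      rintro x hx _ ⟨v, hw, rfl⟩
      refine ⟨x * v, ?_, ?_⟩
      · exact L.mul_mem (hXL hx) (hWL v hw)
      · show u * (x * v) = x * (u * v)
        ring)
    rwa [hXr, hr1, hr2] at h
  have hle : finrank ℚ W ≤ finrank ℚ L := by
    rw [← hLsr]
    exact Submodule.finrank_mono hWle
  set w := finrank ℚ W with hw
  rcases Nat.even_or_odd' w with ⟨c, hc | hc⟩
  · rcases Nat.eq_zero_or_pos c with h0 | h0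
    · have : w = 0 := by omega
      rw [this]
      omega
    · have h := key c (by omega)
      obtain ⟨c, rfl⟩ : ∃ c', c = c' + 1 := ⟨c - 1, by omega⟩
      simp only [Nat.add_sub_cancel] at h
      rw [hc] at h ⊢
      nlinarith
  · have h := key (c + 1) (by omega)
    simp only [Nat.add_sub_cancel] at h
    rw [hc] at h ⊢
    nlinarith

theorem finrank_degLT (m : ℕ) : finrank ℚ (degreeLT ℚ m) = m := by
  rw [(degreeLTEquiv ℚ m).finrank_eq, finrank_fin_fun]

/-- `P ↦ u P(t)` -/
noncomputable def ev (t u : ℂ) : ℚ[X] →ₗ[ℚ] ℂ :=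
  (LinearMap.mulLeft ℚ u).comp (aeval t).toLinearMap

theorem ev_apply (t u : ℂ) (P : ℚ[X]) : ev t u P = u * aeval t P := rfl

theorem ev_inj {t u : ℂ} (ht : Transcendental ℚ t) (hu : u ≠ 0) :
    Function.Injective (ev t u) := by
  intro P Q h
  rw [ev_apply, ev_apply] at h
  exact (transcendental_iff_injective.mp ht) (mul_left_cancel₀ hu h)

/-- polynomials -/
theorem polys {θ : ℂ} (hθ : Transcendental ℚ θ) {t u : ℂ} (ht : Transcendental ℚ t)
    (hu : u ≠ 0) (n : ℕ) (U : Submodule ℚ ℚ[X]) (hU : U ≤ degreeLT ℚ (n + 1))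
    (hE : ∀ P ∈ U, u * aeval t P ∈ EE θ) : finrank ℚ U ^ 2 ≤ 4 * n + 1 := by
  have hfd : ∀ m, FiniteDimensional ℚ (degreeLT ℚ m) := fun m =>
    LinearEquiv.finiteDimensional (degreeLTEquiv ℚ m).symm
  have hUf : FiniteDimensional ℚ U := by
    have := hfd (n + 1)
    exact Submodule.finiteDimensional_of_le hU
  have hmap : ∀ (s v : ℂ), Transcendental ℚ s → v ≠ 0 → ∀ V : Submodule ℚ ℚ[X],
      finrank ℚ (V.map (ev s v)) = finrank ℚ V := fun s v hs hv V =>
    (Submodule.equivMapOfInjective (ev s v) (ev_inj hs hv) V).finrank_eq.symm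
  have core : ∀ m : ℕ, m * finrank ℚ U ≤ (n + m) + m * (m - 1) := by
    intro m
    have i1 := hfd m
    have i2 := hfd (n + m)
    have h := prod_ineq hθ (U.map (ev t u)) (by
        rintro _ ⟨P, hP, rfl⟩
        exact hE P hP) inferInstance ((degreeLT ℚ m).map (ev t 1))
      ((degreeLT ℚ (n + m)).map (ev t u)) inferInstance inferInstance (by
        rintro x ⟨A, hA, rfl⟩ z ⟨P, hP, rfl⟩
        refine ⟨A * P, ?_, ?_⟩
        · have h1 : A.degree < m := mem_degreeLT.mp hA
          have h2 : P.degree < (n + 1 : ℕ) := mem_degreeLT.mp (hU hP)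
          refine mem_degreeLT.mpr ?_
          rcases eq_or_ne A 0 with rfl | hA0
          · rw [zero_mul, degree_zero]
            exact WithBot.bot_lt_coe _
          · rcases eq_or_ne P 0 with rfl | hP0
            · rw [mul_zero, degree_zero]
              exact WithBot.bot_lt_coe _
            · have h3 : A.natDegree < m := (natDegree_lt_iff_degree_lt hA0).mpr h1
              have h4 : P.natDegree < n + 1 := (natDegree_lt_iff_degree_lt hP0).mpr h2
              rw [← natDegree_lt_iff_degree_lt (mul_ne_zero hA0 hP0), natDegree_mul hA0 hP0]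
              omega
        · rw [ev_apply, ev_apply, ev_apply, map_mul]
          ring)
    rw [hmap t 1 ht one_ne_zero, hmap t u ht hu, hmap t u ht hu, finrank_degLT,
      finrank_degLT] at h
    exact h
  set w := finrank ℚ U with hw
  have h := core (w / 2)
  set x := w / 2 with hx
  have h1 : x + x * (x - 1) = x ^ 2 := by
    rcases x with _ | x
    · simp
    · simp only [Nat.add_sub_cancel]
      ring
  have h2 : x * w ≤ n + x ^ 2 := by
    calc x * w ≤ n + x + x * (x - 1) := h
      _ = n + (x + x * (x - 1)) := by ring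
      _ = n + x ^ 2 := by rw [h1]
  rcases Nat.even_or_odd' w with ⟨c, hc | hc⟩
  · have : x = c := by omega
    rw [this, hc] at h2
    rw [hc]
    nlinarith
  · have : x = c := by omega
    rw [this, hc] at h2
    rw [hc]
    nlinarith

end Pool.Agent.Helper455.Sch
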