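import Pool.Agent.Helper455_tow.Grid
import Pool.Agent.W242.GG.Count

/-!
# One step of a tower: for almost all `m` the number `exp (u t ^ m)` is algebraically independent
of `θ`
-/

set_option autoImplicit false

namespace Pool.Agent.Helper455.Tow

open Finset Module
open Pool.Agent.W243.TD

theorem dep_al {θ z : ℂ} (hθ : Transcendental ℚ θ) (h : ¬ AlgebraicIndependent ℚ ![θ, z]) :
    Al θ z := by
  by_contra hcon
  exact h (Pool.Agent.W242.GG.algInd_pair hθ hcon)

theorem tr_right {θ z : ℂ} (h : AlgebraicIndependent ℚ ![θ, z]) : Transcendental ℚ z := by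
  have := h.transcendental (1 : Fin 2)
  simpa using this

theorem li_pow {t : ℂ} (ht : Transcendental ℚ t) {n : ℕ} {a : Fin n → ℕ}
    (ha : Function.Injective a) : LinearIndependent ℚ (fun i => t ^ a i) :=
  (Pool.Agent.W242.GG.li_powers ht).comp a ha

theorem li_mul {n : ℕ} {x : Fin n → ℂ} (hx : LinearIndependent ℚ x) {u : ℂ} (hu : u ≠ 0) :
    LinearIndependent ℚ (fun i => u * x i) := by
  have h := hx.map' (LinearMap.mulLeft ℚ u) (by
    rw [LinearMap.ker_eq_bot]
    intro a b hab
    exact mul_left_cancel₀ hu hab)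
  exact h

theorem no_grid {θ t u : ℂ} (hθ : Transcendental ℚ θ) (ht : Transcendental ℚ t) (hu : u ≠ 0)
    (a : Fin 3 → ℕ) (b : Fin 7 → ℕ) (ha : Function.Injective a) (hb : Function.Injective b)
    (h : ∀ i j, Al θ (Complex.exp (u * t ^ (a i + b j)))) : False := by
  refine expGrid hθ (b := 3) (l := 7) (by norm_num) (li_pow ht ha) (li_mul (li_pow ht hb) hu) ?_
  intro i j
  have h1 := h i j
  have h2 : u * t ^ (a i + b j) = t ^ a i * (u * t ^ b j) := by
    rw [pow_add]; ring
  rwa [h2] at h1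

open Classical in
/-- for almost all `m` the number `exp (u t ^ m)` is algebraically independent of `θ` -/
theorem step_card {θ t u : ℂ} (hθ : Transcendental ℚ θ) (ht : Transcendental ℚ t) (hu : u ≠ 0)
    (M : ℕ) : ((((Icc 1 M).filter
      (fun m => ¬ AlgebraicIndependent ℚ ![θ, Complex.exp (u * t ^ m)])).card : ℕ) : ℝ) ≤
      3 * (M : ℝ) ^ (2 / 3 : ℝ) + 2 := by
  have h1 := Pool.Agent.W242.GG.grid_bound
    (fun m => ¬ AlgebraicIndependent ℚ ![θ, Complex.exp (u * t ^ m)]) M 3 6 (by norm_num)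
    (fun a b ha hb h => no_grid hθ ht hu a b ha hb (fun i j => dep_al hθ (h i j)))
  have h2 := Pool.Agent.W242.GG.real_bound (by norm_num) h1 3 (by norm_num) (by norm_num)
  have h3 : (1 - 1 / ((3 : ℕ) : ℝ)) = 2 / 3 := by norm_num
  rw [h3] at h2
  norm_num at h2
  convert h2 using 3
  ext m
  simp only [Finset.mem_filter]

end Pool.Agent.Helper455.Tow
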